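import Pool.Agent.J4.H80.SH.A

set_option autoImplicit false

/-! # Early long runs of composite numbers around linear recurring sequences modulo primes -/

namespace Pool.Agent.J4.H80.SH

open Finset Polynomial
open Pool.Agent.J4.H80.BGR (Rec Good Nondeg vecSum intSum pol pol_nondeg pol_rec pol_indep fibPol fibPol_nondeg fibs
  fibs_rec fibs_indep)

lemma bd_large (C : ℝ) (hC : 0 < C) (X₀ : ℝ) : ∃ G : ℕ, ∀ g : ℕ, G ≤ g → X₀ ≤ bd C g := by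
  obtain ⟨G, hG⟩ := Pool.Agent.H226R2.ShanksGap.ana (16 / C) (by positivity) X₀
  refine ⟨G, fun g hg => ?_⟩
  have h := (hG g hg).1
  have h1 : 16 / (16 / C) = C := by field_simp
  rw [h1] at h
  exact h

lemma shift {p : ℕ} [Fact p.Prime] {r : ℕ} (T : ℕ) (v : ℕ → Fin r → ZMod p) (w h : Fin r → ZMod p) :
    ‖∑ n ∈ range T, (ZMod.stdAddChar (∑ j, h j * (v n j + w j)) : ℂ)‖ =
      ‖∑ n ∈ range T, (ZMod.stdAddChar (∑ j, h j * v n j) : ℂ)‖ := by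
  have h1 : ∀ n, (ZMod.stdAddChar (∑ j, h j * (v n j + w j)) : ℂ) =
      (ZMod.stdAddChar (∑ j, h j * v n j) : ℂ) * (ZMod.stdAddChar (∑ j, h j * w j) : ℂ) := by
    intro n
    rw [← AddChar.map_add_eq_mul]
    congr 1
    rw [← sum_add_distrib]
    exact sum_congr rfl fun j _ => by ring
  simp only [h1]
  rw [← sum_mul, norm_mul, AddChar.norm_apply, mul_one]

theorem shanks1 (k r : ℕ) (hr : 1 ≤ r) (ε : ℝ) (hε : 0 < ε) (hε1 : ε ≤ 1) :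
    ∃ C : ℝ, 0 < C ∧ ∃ δ : ℝ, 0 < δ ∧ ∃ G : ℕ, ∀ g : ℕ, G ≤ g → ∀ (p : ℕ) [Fact p.Prime], bd C g ≤ p →
    ∀ f : (ZMod p)[X], Good ε p f → f.natDegree ≤ k → ∀ u : Fin r → ℕ → ZMod p, (∀ j, Rec f (u j)) →
    LinearIndependent (ZMod p) u → ∀ (w : Fin r → ZMod p) (T : ℕ), (p : ℝ) ^ ε ≤ T →
    Runs ε δ g p T (fun n j => u j n + w j) := by
  obtain ⟨δ₀, hδ₀, P₀, hP⟩ := vecSum ε hε k
  obtain ⟨C, hC, δ, hδ, G, hG⟩ := runs r hr ε hε hε1 δ₀ hδ₀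
  obtain ⟨G', hG'⟩ := bd_large C hC (P₀ + 1)
  refine ⟨C, hC, δ, hδ, G + G', ?_⟩
  intro g hg p _ hp f hf hk u hu hi w T hT
  have h1 := hG' g (by omega)
  have h2 : P₀ ≤ p := by
    have : (P₀ : ℝ) ≤ p := by linarith
    exact_mod_cast this
  have hp1 : (1 : ℝ) ≤ p := by
    have : (0 : ℝ) ≤ P₀ := Nat.cast_nonneg _
    linarith
  have hT1 : 1 ≤ T := by
    have h3 : (1 : ℝ) ≤ (p : ℝ) ^ ε := Real.one_le_rpow hp1 hε.le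
    have h4 : (1 : ℝ) ≤ T := h3.trans hT
    exact_mod_cast h4
  refine hG g (by omega) p hp T hT1 _ fun h hh => ?_
  rw [shift]
  exact hP p h2 f hf hk r u hu hi T hT h hh

theorem shanks2 (f : ℤ[X]) (hf : Nondeg f) (r : ℕ) (hr : 1 ≤ r) (u : Fin r → ℕ → ℤ) (hu : ∀ j, Rec f (u j))
    (hi : LinearIndependent ℤ u) (ε : ℝ) (hε : 0 < ε) (hε1 : ε ≤ 1) :
    ∃ C : ℝ, 0 < C ∧ ∃ δ : ℝ, 0 < δ ∧ ∃ G : ℕ, ∃ c : ℝ, ∀ Y : ℕ, 1 ≤ Y → ∀ Q : Finset ℕ,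
    (∀ p ∈ Q, p.Prime ∧ p ≤ Y ∧ ∀ _ : Fact p.Prime,
      ¬ ∀ g : ℕ, G ≤ g → bd C g ≤ p → ∀ (w : Fin r → ZMod p) (T : ℕ), (p : ℝ) ^ ε ≤ T →
        Runs ε δ g p T (fun n j => ((u j n : ℤ) : ZMod p) + w j)) →
    (Q.card : ℝ) ≤ c * (Y : ℝ) ^ ε := by
  obtain ⟨δ₀, hδ₀, c, hc⟩ := intSum f hf u hu hi ε hε
  obtain ⟨C, hC, δ, hδ, G, hG⟩ := runs r hr ε hε hε1 δ₀ hδ₀
  refine ⟨C, hC, δ, hδ, G, c, ?_⟩
  intro Y hY Q hQ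
  refine hc Y hY Q fun p hp => ?_
  obtain ⟨h1, h2, h3⟩ := hQ p hp
  refine ⟨h1, h2, fun hF hcon => h3 hF ?_⟩
  intro g hg hgp w T hT
  have hp1 : (1 : ℝ) ≤ p := by exact_mod_cast h1.one_lt.le
  have hT1 : 1 ≤ T := by
    have h3 : (1 : ℝ) ≤ (p : ℝ) ^ ε := Real.one_le_rpow hp1 hε.le
    have h4 : (1 : ℝ) ≤ T := h3.trans hT
    exact_mod_cast h4
  refine hG g hg p hgp T hT1 _ fun h hh => ?_
  rw [shift]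
  exact hcon T hT h hh

theorem powers (r : ℕ) (hr : 1 ≤ r) (a : Fin r → ℤ) (ha : ∀ i, 2 ≤ |a i|) (hab : ∀ i j, i ≠ j → |a i| ≠ |a j|)
    (ε : ℝ) (hε : 0 < ε) (hε1 : ε ≤ 1) :
    ∃ C : ℝ, 0 < C ∧ ∃ δ : ℝ, 0 < δ ∧ ∃ G : ℕ, ∃ c : ℝ, ∀ Y : ℕ, 1 ≤ Y → ∀ Q : Finset ℕ,
    (∀ p ∈ Q, p.Prime ∧ p ≤ Y ∧ ∀ _ : Fact p.Prime,
      ¬ ∀ g : ℕ, G ≤ g → bd C g ≤ p → ∀ (w : Fin r → ZMod p) (T : ℕ), (p : ℝ) ^ ε ≤ T →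
        Runs ε δ g p T (fun n j => (a j : ZMod p) ^ n + w j)) →
    (Q.card : ℝ) ≤ c * (Y : ℝ) ^ ε := by
  have h := shanks2 (pol a) (pol_nondeg a hr ha hab) r hr (fun j n => a j ^ n) (pol_rec a) (pol_indep a hab) ε hε hε1
  simpa only [Int.cast_pow] using h

theorem fibonacci (ε : ℝ) (hε : 0 < ε) (hε1 : ε ≤ 1) :
    ∃ C : ℝ, 0 < C ∧ ∃ δ : ℝ, 0 < δ ∧ ∃ G : ℕ, ∃ c : ℝ, ∀ Y : ℕ, 1 ≤ Y → ∀ Q : Finset ℕ,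
    (∀ p ∈ Q, p.Prime ∧ p ≤ Y ∧ ∀ _ : Fact p.Prime,
      ¬ ∀ g : ℕ, G ≤ g → bd C g ≤ p → ∀ (w : Fin 2 → ZMod p) (T : ℕ), (p : ℝ) ^ ε ≤ T →
        Runs ε δ g p T (fun n j => (Nat.fib (n + j) : ZMod p) + w j)) →
    (Q.card : ℝ) ≤ c * (Y : ℝ) ^ ε := by
  have h := shanks2 fibPol fibPol_nondeg 2 (by norm_num) fibs fibs_rec fibs_indep ε hε hε1
  simpa only [fibs, Int.cast_natCast] using h

end Pool.Agent.J4.H80.SH
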